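import Pool.Agent.Y329.CG.Stm

/-!
Job CG-FD: the finite dimensional dimension lemma.
-/

set_option autoImplicit false

open Set Filter Topology MeasureTheory Pool.Agent.Y329.CG

namespace Pool.Agent.Y77.CG

variable {k : ℕ}

/-- the parameters -/
abbrev Prm (C S T : Finset (Fin k)) : Type :=
  ({i // i ∉ C} ⊕ ({i // i ∉ S} ⊕ {i // i ∉ T})) → ℝ

/-- the points -/
noncomputable def xx {C S T : Finset (Fin k)} (v : Fin k → ℝ) (p : Prm C S T) : Fin k → ℝ :=
  fun i => if h : i ∈ C then v i else p (Sum.inl ⟨i, h⟩)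

/-- the free values, first equation -/
noncomputable def y1 {C S T : Finset (Fin k)} (p : Prm C S T) : Fin k → ℝ :=
  fun i => if h : i ∈ S then 0 else p (Sum.inr (Sum.inl ⟨i, h⟩))

/-- the free values, second equation -/
noncomputable def y2 {C S T : Finset (Fin k)} (p : Prm C S T) : Fin k → ℝ :=
  fun i => if h : i ∈ T then 0 else p (Sum.inr (Sum.inr ⟨i, h⟩))

/-- the matrix -/
noncomputable def MX (w : ℕ → ℝ) (X : Fin k → ℝ) : Matrix (Fin k) (Fin k) ℝ :=
  Matrix.of fun i j => w j * X i ^ (j : ℕ)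

/-- the prescribed values -/
noncomputable def zz (S : Finset (Fin k)) (g : Fin k → (Fin k → ℝ) → ℝ) (X : Fin k → ℝ) :
    Fin k → ℝ := fun i => if i ∈ S then g i X else 0

/-- the solution of the linear system -/
noncomputable def NN (w : ℕ → ℝ) (X u : Fin k → ℝ) : Fin k → ℝ :=
  ((MX w X).det)⁻¹ • ((MX w X).adjugate.mulVec u)

theorem det_ne {w : ℕ → ℝ} (hw : ∀ j, w j ≠ 0) {X : Fin k → ℝ} (hX : Function.Injective X) :
    (MX w X).det ≠ 0 := by
  have h1 : MX w X = Matrix.vandermonde X * Matrix.diagonal (fun j : Fin k => w j) := by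
    ext i j
    rw [Matrix.mul_diagonal, Matrix.vandermonde_apply]
    exact mul_comm _ _
  rw [h1, Matrix.det_mul, Matrix.det_diagonal]
  exact mul_ne_zero (Matrix.det_vandermonde_ne_zero_iff.2 hX)
    (Finset.prod_ne_zero_iff.2 fun j _ => hw j)

theorem NN_mul {w : ℕ → ℝ} {X : Fin k → ℝ} (hX : (MX w X).det ≠ 0) (t : Fin k → ℝ) :
    NN w X ((MX w X).mulVec t) = t := by
  unfold NN
  rw [Matrix.mulVec_mulVec, Matrix.adjugate_mul, Matrix.smul_mulVec, Matrix.one_mulVec, smul_smul,
    inv_mul_cancel₀ hX, one_smul]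

theorem det_cd {P : Type} [NormedAddCommGroup P] [NormedSpace ℝ P]
    {A : P → Matrix (Fin k) (Fin k) ℝ} {x : P}
    (h : ∀ i j, ContDiffAt ℝ 1 (fun p => A p i j) x) : ContDiffAt ℝ 1 (fun p => (A p).det) x := by
  simp only [Matrix.det_apply]
  refine ContDiffAt.sum fun σ _ => ?_
  refine ContDiffAt.const_smul _ ?_
  exact contDiffAt_prod fun i _ => h _ _

theorem adj_cd {P : Type} [NormedAddCommGroup P] [NormedSpace ℝ P]
    {A : P → Matrix (Fin k) (Fin k) ℝ} {x : P}
    (h : ∀ i j, ContDiffAt ℝ 1 (fun p => A p i j) x) (i j : Fin k) :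
    ContDiffAt ℝ 1 (fun p => (A p).adjugate i j) x := by
  simp only [Matrix.adjugate_apply]
  refine det_cd fun a b => ?_
  by_cases ha : a = j
  · subst ha
    simp only [Matrix.updateRow_self]
    exact contDiffAt_const
  · simp only [Matrix.updateRow_ne ha]
    exact h a b

theorem NN_cd {P : Type} [NormedAddCommGroup P] [NormedSpace ℝ P] {w : ℕ → ℝ}
    {X u : P → Fin k → ℝ} {x : P} (hX : ContDiffAt ℝ 1 X x) (hu : ContDiffAt ℝ 1 u x)
    (hd : (MX w (X x)).det ≠ 0) : ContDiffAt ℝ 1 (fun p => NN w (X p) (u p)) x := by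
  have hA : ∀ i j, ContDiffAt ℝ 1 (fun p => MX w (X p) i j) x := by
    intro i j
    have h1 : ContDiffAt ℝ 1 (fun p => X p i) x := contDiffAt_pi.1 hX i
    exact contDiffAt_const.mul (h1.pow _)
  have hdet := det_cd hA
  unfold NN
  refine (hdet.inv hd).smul ?_
  rw [contDiffAt_pi]
  intro i
  simp only [Matrix.mulVec, dotProduct]
  refine ContDiffAt.sum fun j _ => ?_
  exact (adj_cd hA i j).mul (contDiffAt_pi.1 hu j)

theorem xx_cd {C S T : Finset (Fin k)} (v : Fin k → ℝ) :
    ContDiff ℝ 1 (xx v : Prm C S T → Fin k → ℝ) := by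
  rw [contDiff_pi]
  intro i
  unfold xx
  by_cases h : i ∈ C
  · simp only [h, dif_pos]
    exact contDiff_const
  · simp only [h, not_false_eq_true, dif_neg]
    exact contDiff_apply ℝ ℝ _

theorem y1_cd {C S T : Finset (Fin k)} : ContDiff ℝ 1 (y1 : Prm C S T → Fin k → ℝ) := by
  rw [contDiff_pi]
  intro i
  unfold y1
  by_cases h : i ∈ S
  · simp only [h, dif_pos]
    exact contDiff_const
  · simp only [h, not_false_eq_true, dif_neg]
    exact contDiff_apply ℝ ℝ _

theorem y2_cd {C S T : Finset (Fin k)} : ContDiff ℝ 1 (y2 : Prm C S T → Fin k → ℝ) := by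
  rw [contDiff_pi]
  intro i
  unfold y2
  by_cases h : i ∈ T
  · simp only [h, dif_pos]
    exact contDiff_const
  · simp only [h, not_false_eq_true, dif_neg]
    exact contDiff_apply ℝ ℝ _

theorem zz_cd {P : Type} [NormedAddCommGroup P] [NormedSpace ℝ P] {S : Finset (Fin k)}
    {g : Fin k → (Fin k → ℝ) → ℝ} {O : Set (Fin k → ℝ)} (hO : IsOpen O)
    (hg : ∀ i ∈ S, ContDiffOn ℝ 1 (g i) O) {X : P → Fin k → ℝ} {x : P}
    (hX : ContDiffAt ℝ 1 X x) (hx : X x ∈ O) : ContDiffAt ℝ 1 (fun p => zz S g (X p)) x := by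
  rw [contDiffAt_pi]
  intro i
  unfold zz
  by_cases h : i ∈ S
  · simp only [h, if_true]
    exact ((hg i h).contDiffAt (hO.mem_nhds hx)).comp x hX
  · simp only [h, if_false]
    exact contDiffAt_const

/-- **CG-FD** -/
theorem done : S_FD := by
  classical
  intro k w hw C S T hcard v O hO hinj g g' hg hg'
  set Ψ : Prm C S T → (Fin k → ℝ) × (Fin k → ℝ) := fun p =>
    (NN w (xx v p) (zz S g (xx v p) + y1 p), NN w (xx v p) (zz T g' (xx v p) + y2 p)) with hΨ
  set U : Set (Prm C S T) := xx v ⁻¹' O with hU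
  have hsub : {t : (Fin k → ℝ) × (Fin k → ℝ) | ∃ X ∈ O, (∀ i ∈ C, X i = v i) ∧
    (∀ i ∈ S, ∑ j : Fin k, t.1 j * (w j * X i ^ (j : ℕ)) = g i X) ∧
    (∀ i ∈ T, ∑ j : Fin k, t.2 j * (w j * X i ^ (j : ℕ)) = g' i X)} ⊆ Ψ '' U := by
    rintro ⟨t, t'⟩ ⟨X, hXO, hXC, hXS, hXT⟩
    simp only at hXS hXT
    set p : Prm C S T := Sum.elim (fun i => X i) (Sum.elim (fun i => (MX w X).mulVec t i)
      (fun i => (MX w X).mulVec t' i)) with hp
    have hmul : ∀ (t : Fin k → ℝ) i, (MX w X).mulVec t i =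
        ∑ j : Fin k, t j * (w j * X i ^ (j : ℕ)) := by
      intro t i
      simp only [Matrix.mulVec, dotProduct, MX, Matrix.of_apply]
      exact Finset.sum_congr rfl fun j _ => mul_comm _ _
    have hxx : xx v p = X := by
      funext i
      unfold xx
      by_cases h : i ∈ C
      · rw [dif_pos h, hXC i h]
      · rw [dif_neg h]
        rfl
    have h1 : zz S g X + y1 p = (MX w X).mulVec t := by
      funext i
      rw [Pi.add_apply]
      unfold zz y1
      by_cases h : i ∈ S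
      · rw [if_pos h, dif_pos h, add_zero, hmul, hXS i h]
      · rw [if_neg h, dif_neg h, zero_add]
        rfl
    have h2 : zz T g' X + y2 p = (MX w X).mulVec t' := by
      funext i
      rw [Pi.add_apply]
      unfold zz y2
      by_cases h : i ∈ T
      · rw [if_pos h, dif_pos h, add_zero, hmul, hXT i h]
      · rw [if_neg h, dif_neg h, zero_add]
        rfl
    have hd := det_ne hw (hinj X hXO)
    refine ⟨p, ?_, ?_⟩
    · rw [hU, Set.mem_preimage, hxx]
      exact hXO
    · simp only [hΨ]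
      rw [hxx, h1, h2, NN_mul hd, NN_mul hd]
  have hcd : ∀ p ∈ U, ContDiffAt ℝ 1 Ψ p := by
    intro p hp
    have hX := (xx_cd (C := C) (S := S) (T := T) v).contDiffAt (x := p)
    have hd := det_ne hw (hinj _ hp)
    exact ContDiffAt.prodMk
      (NN_cd hX ((zz_cd hO hg hX hp).add y1_cd.contDiffAt) hd)
      (NN_cd hX ((zz_cd hO hg' hX hp).add y2_cd.contDiffAt) hd)
  have hdim : dimH (Ψ '' U) ≤ dimH U := by
    apply dimH_image_le_of_locally_lipschitzOn
    intro p hp
    obtain ⟨K, t, ht, hL⟩ := (hcd p hp).exists_lipschitzOnWith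
    exact ⟨K, t, mem_nhdsWithin_of_mem_nhds ht, hL⟩
  have hU2 : dimH U ≤ (Fintype.card ({i // i ∉ C} ⊕ ({i // i ∉ S} ⊕ {i // i ∉ T})) : ℕ) := by
    rw [← Real.dimH_univ_pi]
    exact dimH_mono (Set.subset_univ _)
  have hc : Fintype.card ({i // i ∉ C} ⊕ ({i // i ∉ S} ⊕ {i // i ∉ T})) < 2 * k := by
    have e : ∀ A : Finset (Fin k), Fintype.card {i // i ∉ A} = k - A.card := by
      intro A
      rw [Fintype.card_subtype_compl, Fintype.card_fin, Fintype.card_coe]
    have hle : ∀ A : Finset (Fin k), A.card ≤ k := fun A => by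
      have := A.card_le_univ
      rwa [Fintype.card_fin] at this
    rw [Fintype.card_sum, Fintype.card_sum, e, e, e]
    have := hle C
    have := hle S
    have := hle T
    omega
  apply dense_compl_of_dimH_lt_finrank
  refine ((dimH_mono hsub).trans (hdim.trans hU2)).trans_lt ?_
  rw [Module.finrank_prod, Module.finrank_pi, Fintype.card_fin]
  exact_mod_cast (by omega : Fintype.card ({i // i ∉ C} ⊕ ({i // i ∉ S} ⊕ {i // i ∉ T})) < k + k)

end Pool.Agent.Y77.CG
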